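import Mathlib

/-!
# The ascending chain condition for minimal log discrepancies and gaps below integers

Shokurov's conjecture says that for every DCC set `Γ` in `[0, 1]` and every `k` the minimal log
discrepancies of the pairs of dimension `k` with coefficients in `Γ` satisfy the ascending chain
condition. We prove, on closed points:

(1) If in dimension `k` the minimal log discrepancies are bounded, and if in dimension `k + 1` there is
for every DCC set `Γ` and every integer `c` a gap below `c`, that is, no minimal log discrepancy is in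
`(c - ε, c)` for some `ε > 0`, then the conjecture is true in dimension `k`.

(2) The conjecture is true in all dimensions if and only if in each dimension the minimal log
discrepancies are bounded, and for infinitely many `n` there is for every DCC set `Γ` in dimension `2 n` a
gap below the single value `n`.

The proof. Let the values `a_1 < a_2 < …` in dimension `k` converge to `a`. For `n` large we multiply
the pairs by `2 n - k` copies of the line with the boundary `(1 - u) · 0`, with `u` such that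
`a + (2 n - k) u = n`. The new values converge from below to `n`, and the coefficients are in the DCC set
`Γ ∪ {1 - u}`.

The facts on pairs which we use are the fields of the structure `LogPairs`: the product of two pairs, the
formula `mld (x, y) = mld x + mld y`, and the line with the boundary `c · 0`, `0 ≤ c ≤ 1`, which has at `0`
the minimal log discrepancy `1 - c`.
-/

set_option autoImplicit false

open Filter Topology

namespace Pool.Agent.Results.MP_df5e61_ag.GapsBelowIntegers

/-- every non-increasing sequence in `A` is eventually constant -/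
def IsDCC (A : Set ℝ) : Prop :=
  ∀ s : ℕ → ℝ, Antitone s → (∀ i, s i ∈ A) → ∃ N, ∀ i, N ≤ i → s i = s N

/-- every non-decreasing sequence in `A` is eventually constant -/
def IsACC (A : Set ℝ) : Prop :=
  ∀ s : ℕ → ℝ, Monotone s → (∀ i, s i ∈ A) → ∃ N, ∀ i, N ≤ i → s i = s N

/-- The log pairs `(X, Δ)` over the base field, with the facts which are used. -/
structure LogPairs where
  /-- the pairs `(X, Δ)` with `X` of dimension at least one -/
  Pair : Type
  /-- the dimension of `X` -/
  dim : Pair → ℕ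
  /-- the coefficients of `Δ` -/
  coeffs : Pair → Set ℝ
  /-- the closed points of `X` -/
  Pt : Pair → Type
  /-- the minimal log discrepancy at a closed point; `⊥` is minus infinity -/
  mld : (X : Pair) → Pt X → WithBot ℝ
  /-- the product of two pairs, with the boundary `Δ × Y + X × Δ'` -/
  prod : Pair → Pair → Pair
  dim_prod : ∀ X Y, dim (prod X Y) = dim X + dim Y
  coeffs_prod : ∀ X Y, coeffs (prod X Y) = coeffs X ∪ coeffs Y
  /-- the closed point `(x, y)` of the product -/
  join : ∀ {X Y}, Pt X → Pt Y → Pt (prod X Y)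
  mld_join : ∀ {X Y} (x : Pt X) (y : Pt Y), mld (prod X Y) (join x y) = mld X x + mld Y y
  /-- the affine line with the boundary `c · 0` -/
  line : (c : ℝ) → 0 ≤ c → c ≤ 1 → Pair
  dim_line : ∀ c h0 h1, dim (line c h0 h1) = 1
  coeffs_line : ∀ c h0 h1, coeffs (line c h0 h1) ⊆ {c}
  /-- the origin of the line -/
  zero : ∀ c h0 h1, Pt (line c h0 h1)
  mld_zero : ∀ c h0 h1, mld (line c h0 h1) (zero c h0 h1) = ((1 - c : ℝ) : WithBot ℝ)

variable (P : LogPairs)

/-- the minimal log discrepancies at closed points (different from minus infinity) of the pairs of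
dimension `k` with coefficients in `Γ` -/
def Omega (Γ : Set ℝ) (k : ℕ) : Set ℝ :=
  {m | 0 ≤ m ∧ ∃ (X : P.Pair) (x : P.Pt X), P.dim X = k ∧ P.coeffs X ⊆ Γ ∧ P.mld X x = (m : WithBot ℝ)}

/-- Shokurov's conjecture in dimension `k` -/
def ACC (k : ℕ) : Prop := ∀ Γ : Set ℝ, Γ ⊆ Set.Icc 0 1 → IsDCC Γ → IsACC (Omega P Γ k)

/-- in dimension `k` the minimal log discrepancies of the pairs with coefficients in a DCC set are
bounded -/
def Bounded (k : ℕ) : Prop := ∀ Γ : Set ℝ, Γ ⊆ Set.Icc 0 1 → IsDCC Γ → BddAbove (Omega P Γ k)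

/-- in dimension `k` there is for every DCC set a gap below the value `c` -/
def Gap (k : ℕ) (c : ℝ) : Prop := ∀ Γ : Set ℝ, Γ ⊆ Set.Icc 0 1 → IsDCC Γ →
  ∃ ε : ℝ, 0 < ε ∧ ∀ m ∈ Omega P Γ k, ¬ (c - ε < m ∧ m < c)

variable {P}

lemma dcc_insert {Γ : Set ℝ} (h : IsDCC Γ) (c : ℝ) : IsDCC (Γ ∪ {c}) := by
  intro s hs hm
  by_cases hinf : ∀ N, ∃ i, N ≤ i ∧ s i = c
  · obtain ⟨N, -, hN⟩ := hinf 0
    refine ⟨N, fun i hi => ?_⟩
    obtain ⟨j, hj, hjc⟩ := hinf i
    have h1 := hs hi
    have h2 := hs hj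
    linarith
  · push Not at hinf
    obtain ⟨N, hN⟩ := hinf
    obtain ⟨N', hN'⟩ := h (fun i => s (N + i)) (fun i j hij => hs (by omega)) (fun i => by
      rcases hm (N + i) with h1 | h1
      · exact h1
      · exact absurd h1 (hN (N + i) (by omega)))
    refine ⟨N + N', fun i hi => ?_⟩
    have h1 := hN' (i - N) (by omega)
    have h2 : N + (i - N) = i := by omega
    simpa only [h2] using h1

/-- products with lines -/
lemma shift {Γ : Set ℝ} {k : ℕ} {m u : ℝ} (hm : m ∈ Omega P Γ k) (h0 : 0 ≤ u) (h1 : u ≤ 1) (l : ℕ) :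
    m + l * u ∈ Omega P (Γ ∪ {1 - u}) (k + l) := by
  induction l with
  | zero =>
    obtain ⟨h2, X, x, h3, h4, h5⟩ := hm
    refine ⟨by simpa using h2, X, x, by simpa using h3, h4.trans Set.subset_union_left, ?_⟩
    simpa using h5
  | succ l ih =>
    obtain ⟨h2, X, x, h3, h4, h5⟩ := ih
    have ha : 0 ≤ 1 - u := by linarith
    have hb : 1 - u ≤ 1 := by linarith
    refine ⟨by push_cast; linarith, P.prod X (P.line (1 - u) ha hb),
      P.join x (P.zero (1 - u) ha hb), ?_, ?_, ?_⟩
    · rw [P.dim_prod, P.dim_line, h3]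
      omega
    · rw [P.coeffs_prod]
      exact Set.union_subset h4 ((P.coeffs_line _ _ _).trans Set.subset_union_right)
    · rw [P.mld_join, P.mld_zero, h5, ← WithBot.coe_add]
      congr 1
      push_cast
      ring

/-- a failure of the chain condition gives a limit from below -/
lemma exists_limit {A : Set ℝ} (hb : BddAbove A) (h : ¬ IsACC A) :
    ∃ a : ℝ, ∀ ε : ℝ, 0 < ε → ∃ m ∈ A, a - ε < m ∧ m < a := by
  unfold IsACC at h
  push Not at h
  obtain ⟨s, hs, hA, hc⟩ := h
  have hbd : BddAbove (Set.range s) := hb.mono (by rintro _ ⟨i, rfl⟩; exact hA i)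
  refine ⟨⨆ i, s i, fun ε hε => ?_⟩
  obtain ⟨i, hi⟩ := exists_lt_of_lt_ciSup (show (⨆ i, s i) - ε < ⨆ i, s i by linarith)
  refine ⟨s i, hA i, hi, lt_of_le_of_ne (le_ciSup hbd i) fun he => ?_⟩
  obtain ⟨j, hj, hne⟩ := hc i
  have h1 := hs hj
  have h2 := le_ciSup hbd j
  exact hne (le_antisymm (by rw [he]; exact h2) h1)

/-- a limit from below in a set with the chain condition -/
lemma gap_of_acc {A : Set ℝ} (h : IsACC A) (c : ℝ) :
    ∃ ε : ℝ, 0 < ε ∧ ∀ m ∈ A, ¬ (c - ε < m ∧ m < c) := by
  by_contra hcon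
  push Not at hcon
  -- an increasing sequence
  have step : ∀ b : ℝ, b < c → ∃ m ∈ A, b < m ∧ m < c := by
    intro b hb
    obtain ⟨m, hm, h1, h2⟩ := hcon (c - b) (by linarith)
    exact ⟨m, hm, by linarith, h2⟩
  choose! f hf1 hf2 hf3 using step
  let s : ℕ → ℝ := fun n => Nat.rec (f (c - 1)) (fun _ x => f x) n
  have hs : ∀ n, s n ∈ A ∧ s n < c := by
    intro n
    induction n with
    | zero => exact ⟨hf1 _ (by linarith), hf3 _ (by linarith)⟩
    | succ n ih => exact ⟨hf1 _ ih.2, hf3 _ ih.2⟩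
  have hlt : ∀ n, s n < s (n + 1) := fun n => hf2 _ (hs n).2
  obtain ⟨N, hN⟩ := h s (strictMono_nat_of_lt_succ hlt).monotone fun n => (hs n).1
  have := hlt N
  rw [hN (N + 1) (by omega)] at this
  exact lt_irrefl _ this

lemma bdd_of_acc {A : Set ℝ} (h : IsACC A) : BddAbove A := by
  by_contra hcon
  rw [not_bddAbove_iff] at hcon
  choose f hf1 hf2 using hcon
  let s : ℕ → ℝ := fun n => Nat.rec (f 0) (fun _ x => f x) n
  have hs : ∀ n, s n ∈ A := by
    intro n
    induction n with
    | zero => exact hf1 _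
    | succ n ih => exact hf1 _
  have hlt : ∀ n, s n < s (n + 1) := fun n => hf2 _
  obtain ⟨N, hN⟩ := h s (strictMono_nat_of_lt_succ hlt).monotone hs
  have := hlt N
  rw [hN (N + 1) (by omega)] at this
  exact lt_irrefl _ this

lemma union_sub {Γ : Set ℝ} (h : Γ ⊆ Set.Icc 0 1) {u : ℝ} (h0 : 0 ≤ u) (h1 : u ≤ 1) :
    Γ ∪ {1 - u} ⊆ Set.Icc 0 1 := by
  refine Set.union_subset h ?_
  rintro _ rfl
  exact ⟨by linarith, by linarith⟩

/-- the reduction: a gap below `a + l u` in dimension `k + l` -/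
lemma acc_of {k : ℕ} (hb : Bounded P k)
    (h : ∀ a : ℝ, ∃ (l : ℕ) (u : ℝ), 0 ≤ u ∧ u ≤ 1 ∧ Gap P (k + l) (a + l * u)) : ACC P k := by
  intro Γ hΓ hD
  by_contra hcon
  obtain ⟨a, ha⟩ := exists_limit (hb Γ hΓ hD) hcon
  obtain ⟨l, u, h0, h1, hg⟩ := h a
  obtain ⟨ε, hε, h2⟩ := hg (Γ ∪ {1 - u}) (union_sub hΓ h0 h1) (dcc_insert hD _)
  obtain ⟨m, hm, h3, h4⟩ := ha ε hε
  exact h2 _ (shift hm h0 h1 l) ⟨by linarith, by linarith⟩

/-- **Gaps below integers.** -/
theorem result (P : LogPairs) :
    -- gaps below the integers in dimension `k + 1`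
    (∀ k : ℕ, Bounded P k → (∀ c : ℤ, Gap P (k + 1) c) → ACC P k) ∧
    -- all dimensions
    ((∀ k : ℕ, ACC P k) ↔ (∀ k : ℕ, Bounded P k) ∧ ∀ N : ℕ, ∃ n : ℕ, N ≤ n ∧ Gap P (2 * n) n) := by
  refine ⟨fun k hb hg => acc_of hb fun a => ?_, fun h => ⟨fun k Γ hΓ hD => bdd_of_acc (h k Γ hΓ hD),
    fun N => ⟨N, le_rfl, fun Γ hΓ hD => gap_of_acc (h _ Γ hΓ hD) _⟩⟩, fun ⟨hb, hg⟩ k => ?_⟩
  · refine ⟨1, ⌈a⌉ - a, by linarith [Int.le_ceil a], by linarith [Int.ceil_lt_add_one a], ?_⟩
    have e : a + ((1 : ℕ) : ℝ) * (⌈a⌉ - a) = ((⌈a⌉ : ℤ) : ℝ) := by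
      push_cast
      ring
    rw [e]
    exact hg _
  · refine acc_of (hb k) fun a => ?_
    by_cases ha : a < 0
    · -- there are no negative values
      refine ⟨0, 0, le_rfl, zero_le_one, fun Γ hΓ hD => ⟨1, one_pos, fun m hm h => ?_⟩⟩
      have h1 := hm.1
      have h2 := h.2
      simp only [Nat.cast_zero, zero_mul, add_zero] at h2
      linarith
    · push Not at ha
      obtain ⟨N, hN⟩ := exists_nat_gt (a + k)
      obtain ⟨n, hn, hgn⟩ := hg N
      have hn' : (N : ℝ) ≤ n := by exact_mod_cast hn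
      have hk0 : (0 : ℝ) ≤ k := Nat.cast_nonneg k
      have hkn : (k : ℝ) < n := by linarith
      have hkn' : k < n := by exact_mod_cast hkn
      have hl : ((2 * n - k : ℕ) : ℝ) = 2 * n - k := by
        rw [Nat.cast_sub (by omega)]
        push_cast
        ring
      have hl0 : (0 : ℝ) < ((2 * n - k : ℕ) : ℝ) := by rw [hl]; linarith
      refine ⟨2 * n - k, (n - a) / ((2 * n - k : ℕ) : ℝ), div_nonneg (by linarith) hl0.le, ?_, ?_⟩
      · rw [div_le_one hl0, hl]
        linarith
      · have e1 : k + (2 * n - k) = 2 * n := by omega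
        have e2 : a + ((2 * n - k : ℕ) : ℝ) * ((n - a) / ((2 * n - k : ℕ) : ℝ)) = n := by
          rw [mul_div_cancel₀ _ hl0.ne']
          ring
        rw [e1, e2]
        exact hgn

end Pool.Agent.Results.MP_df5e61_ag.GapsBelowIntegers
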