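import Mathlib
import Pool.Agent.Q47.TV.EtAcc

/-!
# The ACC for minimal log discrepancies on finite quotients of toroidal pairs

`x` is a closed point of a complex affine variety `X`, `B` an effective `ℝ`-divisor on `X` with
`K_X + B` `ℝ`-Cartier at `x` (`e` is a local equation), and `G` any finite group of automorphisms of
the germ `(X ∋ x, B)` (`IsGermAut`). Every `σ` in `G` is assumed to have an étale toric chart
(`EtGerm`): morphisms `X ← U → X_σ`, étale at a closed point `u`, `u ↦ x` and `u ↦ y`, where `X_σ` is
an affine toric variety of dimension `n` (of any cone) with a torus invariant boundary with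
coefficients in the DCC set `Γ` and `y` is any closed point of it, under which the pairs correspond,
and an automorphism of `U` which fixes `u` and lies over `σ` and over a monomial automorphism of
`X_σ`. Different elements of `G` may need different charts.

The minimal log discrepancy of the quotient germ `(X ∋ x, B) / G` is the least value of
`a(v, X, B) / r_v` over the prime divisors `v` over `X` with centre `x`, where `r_v` is the order of the
inertia group of `v` (`IsQuotMldX`).

Theorem: for every `n` and every DCC set `Γ` the set of the minimal log discrepancies `m ≥ 0` of all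
these quotients satisfies the ascending chain condition. The proof is in
`Pool/Agent/Q47/TV/EtAcc.lean` and `Pool/Agent/Q47/QM` of the starting library; a consequence (`1` is
not a limit of smaller ones) is the starting hand-in MP_21ca32_ag.ToroidalQuotients.
-/

set_option autoImplicit false

namespace Pool.Agent.Results.MP_df5e61_ag.ToroidalQuotients

open Pool.Agent.TH165.ACC Pool.Agent.W497.Mld Pool.Agent.H436R3.KT Pool.Agent.H436R3.Fol Q47.TV

/-- The minimal log discrepancies `m ≥ 0` of the quotients of the germs `(X ∋ x, B)` of dimension `n`
by finite groups `G`, such that every element of `G` has an étale toric chart with coefficients in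
`Γ`. -/
def quotientMlds (n : ℕ) (Γ : Set ℝ) : Set ℝ :=
  {m : ℝ | 0 ≤ m ∧ ∃ (L : Type) (_ : Field L) (_ : Algebra ℂ L) (X : AffVar L) (B : EffDiv X)
    (x : Pt X) (e : LocEq B x) (G : Subgroup (L ≃ₐ[ℂ] L)), Finite G ∧
    (∀ σ ∈ G, IsGermAut e σ) ∧
    (∀ σ ∈ G, Nonempty (EtGerm n (FractionRing (MvPolynomial (Fin n) ℂ)) Γ e σ)) ∧
    IsQuotMldX e G m}

/-- **The ACC for the minimal log discrepancies of finite quotients of toroidal pairs**: every
non-decreasing sequence of such minimal log discrepancies is eventually constant. -/
theorem result (n : ℕ) (Γ : Set ℝ) (hΓ : Pool.Agent.TH165.ACC.IsDCC Γ) :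
    Pool.Agent.TH165.ACC.IsACC (quotientMlds n Γ) :=
  quot_acc_et (n := n) (K := FractionRing (MvPolynomial (Fin n) ℂ)) hΓ

end Pool.Agent.Results.MP_df5e61_ag.ToroidalQuotients
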